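import Mathlib
import Pool.Agent.H10.SgdA

set_option autoImplicit false

namespace Pool.Agent.Results.MP_1fa864_co.Bound
open Pool.Agent.H10.Sgd Finset

theorem result {V : Type} [Fintype V] (G : SimpleGraph V) [DecidableRel G.Adj] (h : G.IsTree) :
    7 * (upS G - lowS G) ≤ 4 * Fintype.card V - 4 ∧
    ((upS G - lowS G : ℤ) : ℝ) / Fintype.card V ≤ 4 / 7 := by
  have b1 : BddBelow {w | ∃ f, SDF G f ∧ ∑ v, f v = w} := ⟨∑ _ : V, -1, by
    rintro _ ⟨f, a, rfl⟩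
    exact sum_le_sum fun v _ => by have := a.1 v; omega⟩
  obtain ⟨g, g1, g2⟩ := Int.csInf_mem (s := {w | ∃ f, SDF G f ∧ ∑ v, f v = w})
    ⟨_, 1, ⟨by simp, by simp⟩, rfl⟩ b1
  obtain ⟨f, f1, f2⟩ := Int.csSup_mem (s := {w | ∃ f, MinSDF G f ∧ ∑ v, f v = w})
    ⟨_, g, ⟨g1, fun k a b => funext fun v => (sum_eq_sum_iff_of_le fun v _ => b v).1
      ((sum_le_sum fun v _ => b v).antisymm (g2 ▸ csInf_le b1 ⟨k, a, rfl⟩)) v (mem_univ v)⟩, rfl⟩
    ⟨∑ _ : V, 1, by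
      rintro _ ⟨f, a, rfl⟩
      exact sum_le_sum fun v _ => by have := a.1.1 v; omega⟩
  have := main h f1 g1
  rw [f2, g2] at this
  refine ⟨this, ?_⟩
  have := h.connected.nonempty
  have e : (7 : ℝ) * ((upS G - lowS G : ℤ) : ℝ) ≤ 4 * Fintype.card V - 4 := by exact_mod_cast ‹_›
  rw [div_le_div_iff₀ (by exact_mod_cast Fintype.card_pos) (by norm_num)]
  linarith

end Pool.Agent.Results.MP_1fa864_co.Bound
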